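import Pool.Agent.H74.TF.Stm

set_option autoImplicit false

namespace Pool.Agent.H80.TF

open Finset Equiv MvPolynomial Pool.Agent.H74.TF

/-- **EV.** Evaluation of polynomials at commuting elements. -/
theorem t_EV : C_EV := by
  intro R A σ _ _ _ J hJ
  have hc : IsMulCommutative (Algebra.adjoin R (Set.range J)) :=
    Algebra.isMulCommutative_adjoin R (by
      rintro _ ⟨x, rfl⟩ _ ⟨y, rfl⟩
      exact hJ x y)
  let J' : σ → Algebra.adjoin R (Set.range J) := fun x => ⟨J x, Algebra.subset_adjoin ⟨x, rfl⟩⟩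
  let i1 : CommRing (Algebra.adjoin R (Set.range J)) :=
    { (inferInstance : Ring (Algebra.adjoin R (Set.range J))) with
      mul_comm := fun a b => hc.is_comm.comm a b }
  refine ⟨(Algebra.adjoin R (Set.range J)).val.comp (aeval J'), fun x => ?_⟩
  rw [AlgHom.comp_apply, aeval_X]
  rfl

end Pool.Agent.H80.TF
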