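import Pool.Agent.H74.TF.Stm

set_option autoImplicit false

namespace Pool.Agent.H80.TF

open Finset Equiv MvPolynomial Pool.Agent.H74.TF

section

variable {R σ : Type} [CommRing R] [DecidableEq σ]

/-- power sums in a subalgebra which contains sum and product -/
theorem SYM2_psum {A : Type} [CommRing A] [Algebra R A] (S : Subalgebra R A) (x y : A)
    (h1 : x + y ∈ S) (h2 : x * y ∈ S) (n : ℕ) : x ^ n + y ^ n ∈ S := by
  induction n using Nat.strong_induction_on with
  | _ n ih =>
    match n with
    | 0 =>
      rw [pow_zero, pow_zero]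
      exact S.add_mem S.one_mem S.one_mem
    | 1 => simpa using h1
    | n + 2 =>
      have h3 : x ^ (n + 2) + y ^ (n + 2) =
          (x + y) * (x ^ (n + 1) + y ^ (n + 1)) - x * y * (x ^ n + y ^ n) := by ring
      rw [h3]
      exact S.sub_mem (S.mul_mem h1 (ih (n + 1) (by omega)))
        (S.mul_mem h2 (ih n (by omega)))

theorem SYM2_pow {A : Type} [CommRing A] [Algebra R A] (S : Subalgebra R A) (x y : A)
    (h1 : x + y ∈ S) (h2 : x * y ∈ S) (a b : ℕ) : x ^ a * y ^ b + x ^ b * y ^ a ∈ S := by
  rcases le_total a b with h | h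
  · obtain ⟨c, rfl⟩ := Nat.exists_eq_add_of_le h
    have h3 : x ^ a * y ^ (a + c) + x ^ (a + c) * y ^ a = (x * y) ^ a * (x ^ c + y ^ c) := by ring
    rw [h3]
    exact S.mul_mem (S.pow_mem h2 a) (SYM2_psum S x y h1 h2 c)
  · obtain ⟨c, rfl⟩ := Nat.exists_eq_add_of_le h
    have h3 : x ^ (b + c) * y ^ b + x ^ b * y ^ (b + c) = (x * y) ^ b * (x ^ c + y ^ c) := by ring
    rw [h3]
    exact S.mul_mem (S.pow_mem h2 b) (SYM2_psum S x y h1 h2 c)

/-- the exponent with `i` and `j` removed -/
noncomputable def SYM2_r (i j : σ) (m : σ →₀ ℕ) : σ →₀ ℕ := (m.erase i).erase j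

theorem SYM2_dec {i j : σ} (hij : i ≠ j) (m : σ →₀ ℕ) :
    m = Finsupp.single i (m i) + Finsupp.single j (m j) + SYM2_r i j m := by
  ext l
  by_cases h1 : l = i
  · subst h1
    simp [SYM2_r, hij, Finsupp.single_apply, Ne.symm hij]
  · by_cases h2 : l = j
    · subst h2
      simp [SYM2_r, hij, h1, Finsupp.single_apply, Ne.symm h1]
    · simp [SYM2_r, h1, h2, Finsupp.single_apply, Ne.symm h1, Ne.symm h2, Finsupp.erase_ne]

theorem SYM2_swap_r {i j : σ} (m : σ →₀ ℕ) :
    (SYM2_r i j m).mapDomain (swap i j) = SYM2_r i j m := by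
  conv_rhs => rw [← Finsupp.mapDomain_id (v := SYM2_r i j m)]
  apply Finsupp.mapDomain_congr
  intro l hl
  have h1 : l ≠ i ∧ l ≠ j := by
    constructor
    · rintro rfl
      simp [SYM2_r, Finsupp.mem_support_iff] at hl
    · rintro rfl
      simp [SYM2_r] at hl
  exact swap_apply_of_ne_of_ne h1.1 h1.2

theorem SYM2_r_mem {i j : σ} (m : σ →₀ ℕ) :
    (monomial (SYM2_r i j m) (1 : R)) ∈
      Algebra.adjoin R ({X i + X j, X i * X j} ∪ X '' {l | l ≠ i ∧ l ≠ j} :
        Set (MvPolynomial σ R)) := by
  rw [monomial_eq, C_1, one_mul, Finsupp.prod]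
  apply Subalgebra.prod_mem
  intro l hl
  apply Subalgebra.pow_mem
  apply Algebra.subset_adjoin
  right
  refine ⟨l, ⟨?_, ?_⟩, rfl⟩
  · rintro rfl
    simp [SYM2_r, Finsupp.mem_support_iff] at hl
  · rintro rfl
    simp [SYM2_r] at hl

theorem SYM2_mono {i j : σ} (hij : i ≠ j) (m : σ →₀ ℕ) (c : R) :
    monomial m c = C c * (X i ^ m i * X j ^ m j) * monomial (SYM2_r i j m) 1 := by
  conv_lhs => rw [SYM2_dec hij m]
  rw [X_pow_eq_monomial, X_pow_eq_monomial, monomial_mul, C_mul_monomial, monomial_mul]
  simp

theorem SYM2_mono' {i j : σ} (hij : i ≠ j) (m : σ →₀ ℕ) (c : R) :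
    monomial (m.mapDomain (swap i j)) c =
      C c * (X i ^ m j * X j ^ m i) * monomial (SYM2_r i j m) 1 := by
  have h : m.mapDomain (swap i j) =
      Finsupp.single j (m i) + Finsupp.single i (m j) + SYM2_r i j m := by
    conv_lhs => rw [SYM2_dec hij m]
    rw [Finsupp.mapDomain_add, Finsupp.mapDomain_add, Finsupp.mapDomain_single,
      Finsupp.mapDomain_single, swap_apply_left, swap_apply_right, SYM2_swap_r]
  rw [h, X_pow_eq_monomial, X_pow_eq_monomial, monomial_mul, C_mul_monomial, monomial_mul]
  rw [add_comm (Finsupp.single j (m i))]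
  simp

end

/-- **SYM2.** A polynomial symmetric in two of its variables. -/
theorem t_SYM2 : C_SYM2 := by
  intro R σ _ _ _ i j f hij hf
  set S : Subalgebra R (MvPolynomial σ R) :=
    Algebra.adjoin R ({X i + X j, X i * X j} ∪ X '' {l | l ≠ i ∧ l ≠ j}) with hS
  have hs1 : (X i + X j : MvPolynomial σ R) ∈ S := Algebra.subset_adjoin (by left; left; rfl)
  have hs2 : (X i * X j : MvPolynomial σ R) ∈ S := Algebra.subset_adjoin (by left; right; rfl)
  have hC : ∀ c : R, (C c : MvPolynomial σ R) ∈ S := fun c => S.algebraMap_mem c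
  induction h : f.support.card using Nat.strong_induction_on generalizing f with
  | _ n ih =>
    by_cases hf0 : f = 0
    · rw [hf0]; exact S.zero_mem
    obtain ⟨m, hm⟩ : f.support.Nonempty := by
      rw [Finset.nonempty_iff_ne_empty]
      intro h0
      exact hf0 (support_eq_empty.1 h0)
    have hinv : (m.mapDomain (swap i j)).mapDomain (swap i j) = m := by
      rw [← Finsupp.mapDomain_comp]
      conv_rhs => rw [← Finsupp.mapDomain_id (v := m)]
      congr 1
      funext l
      simp
    have hcoef : coeff (m.mapDomain (swap i j)) f = coeff m f := by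
      conv_lhs => rw [← hf]
      exact coeff_rename_mapDomain _ (swap i j).injective f m
    -- the general step
    have step : ∀ g : MvPolynomial σ R, g ∈ S → rename (swap i j) g = g →
        coeff m g = coeff m f → g.support ⊆ f.support → f ∈ S := by
      intro g hg1 hg2 hg3 hg4
      have h1 : f - g ∈ S := by
        refine ih (f - g).support.card ?_ (f - g) ?_ rfl
        · rw [← h]
          apply Finset.card_lt_card
          rw [Finset.ssubset_iff_of_subset]
          · refine ⟨m, hm, ?_⟩
            rw [notMem_support_iff, coeff_sub, hg3, sub_self]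
          · intro m' hm'
            by_contra h2
            apply (mem_support_iff.1 hm')
            have h3 : m' ∉ g.support := fun h4 => h2 (hg4 h4)
            rw [coeff_sub, notMem_support_iff.1 h2, notMem_support_iff.1 h3, sub_zero]
        · rw [map_sub, hf, hg2]
      have h2 : f = (f - g) + g := by ring
      rw [h2]
      exact S.add_mem h1 hg1
    by_cases hfix : m.mapDomain (swap i j) = m
    · apply step (monomial m (coeff m f))
      · have hmm : m i = m j := by
          have h1 := congrArg (fun v : σ →₀ ℕ => v j) hfix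
          have h2 : (m.mapDomain (swap i j)) (swap i j i) = m i :=
            Finsupp.mapDomain_apply (swap i j).injective m i
          rw [swap_apply_left] at h2
          exact h2.symm.trans h1
        rw [SYM2_mono hij, ← hmm, ← mul_pow]
        exact S.mul_mem (S.mul_mem (hC _) (S.pow_mem hs2 _)) (SYM2_r_mem m)
      · rw [rename_monomial, hfix]
      · rw [coeff_monomial, if_pos rfl]
      · intro m' hm'
        have h1 := support_monomial_subset hm'
        rw [Finset.mem_singleton] at h1
        rw [h1]; exact hm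
    · apply step (monomial m (coeff m f) + monomial (m.mapDomain (swap i j)) (coeff m f))
      · rw [SYM2_mono hij m, SYM2_mono' hij m, ← add_mul, ← mul_add]
        exact S.mul_mem (S.mul_mem (hC _) (SYM2_pow S _ _ hs1 hs2 _ _)) (SYM2_r_mem m)
      · rw [map_add, rename_monomial, rename_monomial, hinv, add_comm]
      · rw [coeff_add, coeff_monomial, coeff_monomial, if_pos rfl, if_neg hfix, add_zero]
      · intro m' hm'
        have h1 := support_add hm'
        rw [Finset.mem_union] at h1
        rcases h1 with h1 | h1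
        · have h2 := support_monomial_subset h1
          rw [Finset.mem_singleton] at h2
          rw [h2]; exact hm
        · have h2 := support_monomial_subset h1
          rw [Finset.mem_singleton] at h2
          rw [h2, mem_support_iff, hcoef]
          exact mem_support_iff.1 hm

end Pool.Agent.H80.TF
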