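import Pool.Agent.H74.TF.Stm

/-! Part STP of the project TF (helper74). -/

set_option autoImplicit false
set_option linter.all false

namespace Pool.Agent.H80.TF

open Finset Equiv MvPolynomial Pool.Agent.H74.TF

variable {m k : ℕ}

theorem STP_dl_dl (x : Pt m k) : dl m k (dl m k x) = x := by
  rcases x with ⟨i, b⟩ | r
  · cases b <;> rfl
  · rfl

theorem STP_dl_inl (i : Fin m) (b : Bool) :
    dl m k (Sum.inl (i, b)) = Sum.inl (i, !b) := rfl

theorem STP_iv_iv (g : Perm (Pt m k)) (x : Pt m k) : iv g (iv g x) = x := by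
  simp [iv, STP_dl_dl]

theorem STP_iv_swap (g : Perm (Pt m k)) (y c x : Pt m k) :
    iv (swap y c * g) x = swap y c (iv g (swap y c x)) := by
  simp only [iv, Perm.mul_apply, mul_inv_rev, swap_inv]

theorem STP_notNF {g : Perm (Pt m k)} {i : Fin m} :
    i ∉ NF g ↔ iv g (Sum.inl (i, false)) = Sum.inl (i, true) := by
  simp [NF]

theorem STP_notNF_b {g : Perm (Pt m k)} {i : Fin m} (h : i ∉ NF g) (b : Bool) :
    iv g (Sum.inl (i, b)) = Sum.inl (i, !b) := by
  rw [STP_notNF] at h
  cases b
  · exact h
  · rw [← h, STP_iv_iv]; rfl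

theorem STP_lost {g : Perm (Pt m k)} {y c : Pt m k} {i : Fin m} (h1 : i ∈ NF g)
    (h2 : i ∉ NF (swap y c * g)) : (∃ b, y = Sum.inl (i, b)) ∨ (∃ b, c = Sum.inl (i, b)) := by
  by_contra hno
  rw [not_or, not_exists, not_exists] at hno
  have hf : ∀ b, swap y c (Sum.inl (i, b)) = Sum.inl (i, b) := fun b =>
    swap_apply_of_ne_of_ne (Ne.symm (hno.1 b)) (Ne.symm (hno.2 b))
  rw [STP_notNF, STP_iv_swap, hf] at h2
  have h3 : iv g (Sum.inl (i, false)) = Sum.inl (i, true) := by
    rw [← hf true] at h2
    exact (swap y c).injective h2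
  exact (STP_notNF.mpr h3) h1

/-- if the pair of `y` is no longer in `NF` -/
theorem STP_y {g : Perm (Pt m k)} {c : Pt m k} {i : Fin m} {b : Bool}
    (h2 : i ∉ NF (swap (Sum.inl (i, b)) c * g)) (hc : ∀ b, c ≠ Sum.inl (i, b)) :
    Sum.inl (i, b) = dl m k (iv g c) := by
  have h3 := STP_notNF_b h2 b
  rw [STP_iv_swap, swap_apply_left] at h3
  have h4 : swap (Sum.inl (i, b)) c (Sum.inl (i, !b)) = Sum.inl (i, !b) := by
    apply swap_apply_of_ne_of_ne
    · cases b <;> simp
    · exact Ne.symm (hc _)
  rw [← h4] at h3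
  have h5 := (swap (Sum.inl (i, b) : Pt m k) c).injective h3
  rw [h5, STP_dl_inl, Bool.not_not]

/-- if the pair of `c` is not in `NF` then nothing is lost -/
theorem STP_c {g : Perm (Pt m k)} {y : Pt m k} {i : Fin m} (h : i ∉ NF g)
    (hy : rk y < rk (Sum.inl (i, false) : Pt m k)) :
    insert i (NF g) ⊆ NF (swap y (Sum.inl (i, false)) * g) := by
  have hyc : y ≠ Sum.inl (i, false) := by
    rintro rfl
    exact lt_irrefl _ hy
  have hyc' : y ≠ Sum.inl (i, true) := by
    rintro rfl
    simp [rk] at hy
  intro j hj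
  by_contra hno
  rw [Finset.mem_insert] at hj
  rcases hj with rfl | hj
  · rw [STP_notNF, STP_iv_swap, swap_apply_right] at hno
    have h1 : swap y (Sum.inl (j, false)) (Sum.inl (j, true)) = Sum.inl (j, true) := by
      apply swap_apply_of_ne_of_ne
      · exact Ne.symm hyc'
      · simp
    rw [← h1] at hno
    have h2 := (swap y (Sum.inl (j, false) : Pt m k)).injective hno
    have h3 := STP_notNF.mp h
    rw [← h3] at h2
    exact hyc ((iv g).injective h2)
  · have hji : i ≠ j := by
      rintro rfl
      exact h hj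
    rcases STP_lost hj hno with ⟨b, rfl⟩ | ⟨b, hb⟩
    · have h4 := STP_y hno (fun b' hb' => hji (congrArg Prod.fst (Sum.inl_injective hb')))
      rw [STP_notNF_b h false, STP_dl_inl] at h4
      exact hyc h4
    · exact hji (congrArg Prod.fst (Sum.inl_injective hb))

theorem STP_pc_inr (r : Fin k) (cs : List (Fin m ⊕ Fin k)) : pc (Sum.inr r :: cs) = pc cs := by
  ext i
  simp [pc]

theorem STP_pc_inl (i : Fin m) (cs : List (Fin m ⊕ Fin k)) :
    pc (Sum.inl i :: cs) = insert i (pc cs) := by
  ext j
  simp [pc]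

theorem STP_sub_inr {g : Perm (Pt m k)} {y : Pt m k} {r : Fin k} {i j : Fin m}
    (hi : i ∈ NF g) (hi' : i ∉ NF (swap y (Sum.inr r) * g))
    (hj : j ∈ NF g) (hj' : j ∉ NF (swap y (Sum.inr r) * g)) : i = j := by
  rcases STP_lost hi hi' with ⟨b, rfl⟩ | ⟨b, hb⟩
  · rcases STP_lost hj hj' with ⟨b', hb'⟩ | ⟨b', hb'⟩
    · exact congrArg Prod.fst (Sum.inl_injective hb')
    · cases hb'
  · cases hb

theorem t_STP (hV : C_V0) (hL : C_LOW) : C_STP := by
  classical
  intro R _ m k c cs g hs hw y hy hval
  obtain ⟨hle, heq⟩ := hL R m k cs _ hval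
  have hsd : (NF g).card ≤ (NF (swap y (ctr c) * g)).card +
      (NF g \ NF (swap y (ctr c) * g)).card := by
    have h1 := Finset.card_sdiff_add_card_inter (NF g) (NF (swap y (ctr c) * g))
    have h2 := Finset.card_le_card (Finset.inter_subset_right :
      NF g ∩ NF (swap y (ctr c) * g) ⊆ NF (swap y (ctr c) * g))
    omega
  rcases c with i0 | r
  · -- a pair centre
    have hmem : ∀ i ∈ NF g \ NF (swap y (ctr (Sum.inl i0)) * g), i ≠ i0 →
        (∃ b, y = Sum.inl (i, b)) ∧ y = dl m k (iv g (ctr (Sum.inl i0))) := by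
      intro i hi hne
      rw [Finset.mem_sdiff] at hi
      rcases STP_lost hi.1 hi.2 with ⟨b, rfl⟩ | ⟨b, hb⟩
      · refine ⟨⟨b, rfl⟩, ?_⟩
        exact STP_y hi.2 (fun b' hb' => hne (congrArg Prod.fst (Sum.inl_injective hb')).symm)
      · exact absurd (congrArg Prod.fst (Sum.inl_injective hb)).symm hne
    have hcard1 : ((NF g \ NF (swap y (ctr (Sum.inl i0)) * g)).erase i0).card ≤ 1 := by
      rw [Finset.card_le_one]
      intro i hi j hj
      rw [Finset.mem_erase] at hi hj
      obtain ⟨⟨b, hb⟩, -⟩ := hmem i hi.2 hi.1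
      obtain ⟨⟨b', hb'⟩, -⟩ := hmem j hj.2 hj.1
      rw [hb] at hb'
      exact congrArg Prod.fst (Sum.inl_injective hb')
    have hwt : wt (Sum.inl i0 :: cs) = cs.length + 1 + (insert i0 (pc cs)).card := by
      rw [wt, STP_pc_inl, List.length_cons]
    have hwt' : wt cs = cs.length + (pc cs).card := rfl
    by_cases hi0 : i0 ∈ pc cs
    · rw [Finset.insert_eq_of_mem hi0] at hwt
      by_cases hin : i0 ∈ NF (swap y (ctr (Sum.inl i0)) * g)
      · have hnot : i0 ∉ NF g \ NF (swap y (ctr (Sum.inl i0)) * g) := by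
          rw [Finset.mem_sdiff, not_and_not_right]
          exact fun _ => hin
        rw [Finset.erase_eq_of_notMem hnot] at hcard1
        have hne : (NF g \ NF (swap y (ctr (Sum.inl i0)) * g)).Nonempty := by
          rw [← Finset.card_pos]
          omega
        obtain ⟨i, hi⟩ := hne
        have hii : i ≠ i0 := by
          rintro rfl
          exact hnot hi
        exact ⟨(hmem i hi hii).2, by omega⟩
      · exfalso
        -- the first element of `cs` is `inl i0`
        have hin' : (Sum.inl i0 : Fin m ⊕ Fin k) ∈ cs := by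
          have := hi0
          simp only [pc, Finset.mem_filter, Finset.mem_univ, true_and] at this
          exact this
        rcases cs with _ | ⟨c0, cs'⟩
        · simp at hin'
        have hrk : rk (ctr c0 : Pt m k) = rk (ctr (Sum.inl i0) : Pt m k) := by
          rw [Srt, List.pairwise_cons] at hs
          have h1 := hs.1 c0 List.mem_cons_self
          have h2 := hs.2
          rw [List.pairwise_cons] at h2
          rcases List.mem_cons.mp hin' with h3 | h3
          · rw [← h3]
          · exact le_antisymm h1 (h2.1 _ h3)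
        have hc0 : c0 = Sum.inl i0 := by
          rcases c0 with i | r
          · simp only [rk, ctr, Bool.toNat_false, add_zero] at hrk
            congr 1
            apply Fin.ext
            omega
          · exfalso
            simp only [rk, ctr, Bool.toNat_false, add_zero] at hrk
            have := i0.isLt
            omega
        subst hc0
        have hval' : (∑ y' : Pt m k with rk y' < rk (ctr (Sum.inl i0) : Pt m k),
            val R cs' (swap y' (ctr (Sum.inl i0)) * (swap y (ctr (Sum.inl i0)) * g))) ≠ 0 := hval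
        obtain ⟨y', hy', hy2⟩ := Finset.exists_ne_zero_of_sum_ne_zero hval'
        rw [Finset.mem_filter] at hy'
        obtain ⟨hle', -⟩ := hL R m k cs' _ hy2
        have h5 := Finset.card_le_card (STP_c hin hy'.2)
        rw [Finset.card_insert_of_notMem hin] at h5
        have h6 : (pc cs').card ≤ (pc (Sum.inl i0 :: cs')).card := by
          rw [STP_pc_inl]
          exact Finset.card_le_card (Finset.subset_insert _ _)
        have h7 : wt cs' = cs'.length + (pc cs').card := rfl
        have h8 : wt (Sum.inl i0 :: cs') = cs'.length + 1 + (pc (Sum.inl i0 :: cs')).card := by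
          rw [wt, List.length_cons]
        have h9 : (NF (swap y' (ctr (Sum.inl i0)) * (swap y (ctr (Sum.inl i0)) * g))).card =
          (NF (swap y' (Sum.inl (i0, false)) * (swap y (ctr (Sum.inl i0)) * g))).card := rfl
        have h10 := Finset.pred_card_le_card_erase (a := i0)
          (s := NF g \ NF (swap y (ctr (Sum.inl i0)) * g))
        rw [List.length_cons] at hwt hwt'
        omega
    · rw [Finset.card_insert_of_notMem hi0] at hwt
      have h10 := Finset.pred_card_le_card_erase (a := i0)
        (s := NF g \ NF (swap y (ctr (Sum.inl i0)) * g))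
      have hne : ((NF g \ NF (swap y (ctr (Sum.inl i0)) * g)).erase i0).Nonempty := by
        rw [← Finset.card_pos]
        omega
      obtain ⟨i, hi⟩ := hne
      rw [Finset.mem_erase] at hi
      exact ⟨(hmem i hi.2 hi.1).2, by omega⟩
  · -- a single point
    have hwt : wt (Sum.inr r :: cs) = cs.length + 1 + (pc cs).card := by
      rw [wt, STP_pc_inr, List.length_cons]
    have hwt' : wt cs = cs.length + (pc cs).card := rfl
    have hcard1 : (NF g \ NF (swap y (ctr (Sum.inr r)) * g)).card ≤ 1 := by
      rw [Finset.card_le_one]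
      intro i hi j hj
      rw [Finset.mem_sdiff] at hi hj
      exact STP_sub_inr hi.1 hi.2 hj.1 hj.2
    have hne : (NF g \ NF (swap y (ctr (Sum.inr r)) * g)).Nonempty := by
      rw [← Finset.card_pos]
      omega
    obtain ⟨i, hi⟩ := hne
    rw [Finset.mem_sdiff] at hi
    refine ⟨?_, by omega⟩
    rcases STP_lost hi.1 hi.2 with ⟨b, rfl⟩ | ⟨b, hb⟩
    · exact STP_y hi.2 (fun b' hb' => by cases hb')
    · cases hb

end Pool.Agent.H80.TF
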